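import Pool.Agent.H63.SEP.Stmts3

/-! SEP, module ABH: absoluteness of the hierarchy with witnesses -/

set_option linter.unusedVariables false
set_option linter.unusedSectionVars false
set_option synthInstance.maxSize 100000

namespace SW.SEP

open SW

section
variable {K N : Type} [SetStr K] [SetStr N] {j : K → N}

theorem abh_ex {P : N → Prop} (h : ∀ t, P t → ∃ y, t = j y) : (∃ t, P t) ↔ ∃ t0, P (j t0) := by
  constructor
  · rintro ⟨t, ht⟩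
    obtain ⟨y, rfl⟩ := h t ht
    exact ⟨y, ht⟩
  · rintro ⟨t, ht⟩
    exact ⟨j t, ht⟩

theorem abh_all {P Q : N → Prop} (h : ∀ t, P t → ∃ y, t = j y) :
    (∀ t, P t → Q t) ↔ ∀ t0, P (j t0) → Q (j t0) := by
  constructor
  · intro H t ht
    exact H _ ht
  · intro H t ht
    obtain ⟨y, rfl⟩ := h t ht
    exact H y ht

theorem abh_iff (hj : TEmb j) {P : N → Prop} {z : K} (h : ∀ t, P t → ∃ y, t = j y) :
    (∀ t, E t (j z) ↔ P t) ↔ ∀ t0, E t0 z ↔ P (j t0) := by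
  constructor
  · intro H t
    rw [← hj.mem]
    exact H _
  · intro H t
    constructor
    · intro ht
      obtain ⟨y, rfl⟩ := hj.tr _ _ ht
      rw [hj.mem] at ht
      exact (H y).1 ht
    · intro ht
      obtain ⟨y, rfl⟩ := h t ht
      rw [hj.mem]
      exact (H y).2 ht

theorem abh_eq (hj : TEmb j) {x y : K} : j x = j y ↔ x = y := ⟨hj.inj _ _, fun h => by rw [h]⟩

theorem abh_op_im (hj : TEmb j) {z : K} {a b : N} (h : IsOP (j z) a b) :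
    (∃ x, a = j x) ∧ ∃ y, b = j y := by
  obtain ⟨s, t, hs, ht, hz⟩ := h
  obtain ⟨s0, rfl⟩ := hj.tr _ _ ((hz s).2 (Or.inl rfl))
  obtain ⟨t0, rfl⟩ := hj.tr _ _ ((hz t).2 (Or.inr rfl))
  exact ⟨hj.tr _ _ ((hs a).2 rfl), hj.tr _ _ ((ht b).2 (Or.inr rfl))⟩

theorem abh_op (hj : TEmb j) {z a b : K} : IsOP (j z) (j a) (j b) ↔ IsOP z a b := by
  have e1 : ∀ s : K, (∀ w, E w (j s) ↔ w = j a) ↔ ∀ w, E w s ↔ w = a := by
    intro s
    rw [abh_iff hj (fun t ht => ⟨a, ht⟩)]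
    simp only [abh_eq hj]
  have e2 : ∀ s : K, (∀ w, E w (j s) ↔ w = j a ∨ w = j b) ↔ ∀ w, E w s ↔ w = a ∨ w = b := by
    intro s
    rw [abh_iff hj (fun t ht => ht.elim (fun h => ⟨a, h⟩) (fun h => ⟨b, h⟩))]
    simp only [abh_eq hj]
  have e3 : ∀ s t : K, (∀ w, E w (j z) ↔ w = j s ∨ w = j t) ↔ ∀ w, E w z ↔ w = s ∨ w = t := by
    intro s t
    rw [abh_iff hj (fun _ ht => ht.elim (fun h => ⟨s, h⟩) (fun h => ⟨t, h⟩))]
    simp only [abh_eq hj]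
  constructor
  · rintro ⟨s, t, hs, ht, hz⟩
    obtain ⟨s0, rfl⟩ := hj.tr _ _ ((hz s).2 (Or.inl rfl))
    obtain ⟨t0, rfl⟩ := hj.tr _ _ ((hz t).2 (Or.inr rfl))
    exact ⟨s0, t0, (e1 _).1 hs, (e2 _).1 ht, (e3 _ _).1 hz⟩
  · rintro ⟨s, t, hs, ht, hz⟩
    exact ⟨j s, j t, (e1 _).2 hs, (e2 _).2 ht, (e3 _ _).2 hz⟩

theorem abh_pair_im (hj : TEmb j) {R : K} {a b : N} (h : PairIn a b (j R)) :
    (∃ x, a = j x) ∧ ∃ y, b = j y := by
  obtain ⟨z, hz, hR⟩ := h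
  obtain ⟨z0, rfl⟩ := hj.tr _ _ hR
  exact abh_op_im hj hz

theorem abh_pair (hj : TEmb j) {a b R : K} : PairIn (j a) (j b) (j R) ↔ PairIn a b R := by
  unfold PairIn
  rw [abh_ex (fun z hz => hj.tr _ _ hz.2)]
  simp only [abh_op hj, hj.mem]

theorem abh_tri_im (hj : TEmb j) {t : K} {u v w : N} (h : IsTriple (j t) u v w) :
    (∃ x, u = j x) ∧ (∃ y, v = j y) ∧ ∃ z, w = j z := by
  obtain ⟨p, hp, ht⟩ := h
  obtain ⟨⟨p0, rfl⟩, hw⟩ := abh_op_im hj ht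
  obtain ⟨hu, hv⟩ := abh_op_im hj hp
  exact ⟨hu, hv, hw⟩

theorem abh_tri (hj : TEmb j) {t u v w : K} :
    IsTriple (j t) (j u) (j v) (j w) ↔ IsTriple t u v w := by
  unfold IsTriple
  rw [abh_ex (fun p hp => (abh_op_im hj hp.2).1)]
  simp only [abh_op hj]

theorem abh_tin_im (hj : TEmb j) {R : K} {x m c : N} (h : TripleIn x m c (j R)) :
    (∃ x0, x = j x0) ∧ (∃ m0, m = j m0) ∧ ∃ c0, c = j c0 := by
  obtain ⟨y, hy, hR⟩ := h
  obtain ⟨⟨y0, rfl⟩, hc⟩ := abh_pair_im hj hR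
  obtain ⟨hx, hm⟩ := abh_op_im hj hy
  exact ⟨hx, hm, hc⟩

theorem abh_tin (hj : TEmb j) {x m c R : K} :
    TripleIn (j x) (j m) (j c) (j R) ↔ TripleIn x m c R := by
  unfold TripleIn
  rw [abh_ex (fun p hp => (abh_pair_im hj hp.2).1)]
  simp only [abh_op hj, abh_pair hj]

theorem abh_incl (hj : TEmb j) {x y : K} : Incl (j x) (j y) ↔ Incl x y := by
  unfold Incl
  rw [abh_all (fun t ht => hj.tr _ _ ht)]
  simp only [hj.mem]

theorem abh_trans (hj : TEmb j) {x : K} : IsTransitive (j x) ↔ IsTransitive x := by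
  constructor
  · intro h y hy
    have := h (j y) ((hj.mem _ _).2 hy)
    exact (abh_incl hj).1 this
  · intro h y hy
    obtain ⟨y0, rfl⟩ := hj.tr _ _ hy
    exact (abh_incl hj).2 (h y0 ((hj.mem _ _).1 hy))

theorem abh_ord (hj : TEmb j) {x : K} : IsOrdinal (j x) ↔ IsOrdinal x := by
  unfold IsOrdinal
  rw [abh_trans hj, abh_all (fun t ht => hj.tr _ _ ht)]
  simp only [hj.mem, abh_trans hj]

theorem abh_GV (hj : TEmb j) (i : ℕ) {z x y : K} : GV i (j z) (j x) (j y) ↔ GV i z x y := by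
  match i with
  | 0 =>
    simp only [GV]
    rw [abh_iff hj (fun t ht => ht.elim (fun h => ⟨x, h⟩) (fun h => ⟨y, h⟩))]
    simp only [abh_eq hj]
  | 1 =>
    simp only [GV]
    constructor
    · rintro ⟨h1, h2⟩
      constructor
      · intro t ht
        obtain ⟨u, v, hu, hv, huv⟩ := h1 (j t) ((hj.mem _ _).2 ht)
        obtain ⟨⟨u, rfl⟩, ⟨v, rfl⟩⟩ := abh_op_im hj huv
        exact ⟨u, v, (hj.mem _ _).1 hu, (hj.mem _ _).1 hv, (abh_op hj).1 huv⟩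
      · intro u v hu hv
        obtain ⟨t, ht, h3⟩ := h2 (j u) (j v) ((hj.mem _ _).2 hu) ((hj.mem _ _).2 hv)
        obtain ⟨t, rfl⟩ := hj.tr _ _ ht
        exact ⟨t, (hj.mem _ _).1 ht, (abh_op hj).1 h3⟩
    · rintro ⟨h1, h2⟩
      constructor
      · intro t ht
        obtain ⟨t, rfl⟩ := hj.tr _ _ ht
        obtain ⟨u, v, hu, hv, huv⟩ := h1 t ((hj.mem _ _).1 ht)
        exact ⟨j u, j v, (hj.mem _ _).2 hu, (hj.mem _ _).2 hv, (abh_op hj).2 huv⟩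
      · intro u v hu hv
        obtain ⟨u, rfl⟩ := hj.tr _ _ hu
        obtain ⟨v, rfl⟩ := hj.tr _ _ hv
        obtain ⟨t, ht, h3⟩ := h2 u v ((hj.mem _ _).1 hu) ((hj.mem _ _).1 hv)
        exact ⟨j t, (hj.mem _ _).2 ht, (abh_op hj).2 h3⟩
  | 2 =>
    simp only [GV]
    constructor
    · rintro ⟨h1, h2⟩
      constructor
      · intro t ht
        obtain ⟨u, v, hu, hv, he, huv⟩ := h1 (j t) ((hj.mem _ _).2 ht)
        obtain ⟨⟨u, rfl⟩, ⟨v, rfl⟩⟩ := abh_op_im hj huv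
        exact ⟨u, v, (hj.mem _ _).1 hu, (hj.mem _ _).1 hv, (hj.mem _ _).1 he, (abh_op hj).1 huv⟩
      · intro u v hu hv he
        obtain ⟨t, ht, h3⟩ := h2 (j u) (j v) ((hj.mem _ _).2 hu) ((hj.mem _ _).2 hv)
          ((hj.mem _ _).2 he)
        obtain ⟨t, rfl⟩ := hj.tr _ _ ht
        exact ⟨t, (hj.mem _ _).1 ht, (abh_op hj).1 h3⟩
    · rintro ⟨h1, h2⟩
      constructor
      · intro t ht
        obtain ⟨t, rfl⟩ := hj.tr _ _ ht
        obtain ⟨u, v, hu, hv, he, huv⟩ := h1 t ((hj.mem _ _).1 ht)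
        exact ⟨j u, j v, (hj.mem _ _).2 hu, (hj.mem _ _).2 hv, (hj.mem _ _).2 he,
          (abh_op hj).2 huv⟩
      · intro u v hu hv he
        obtain ⟨u, rfl⟩ := hj.tr _ _ hu
        obtain ⟨v, rfl⟩ := hj.tr _ _ hv
        obtain ⟨t, ht, h3⟩ := h2 u v ((hj.mem _ _).1 hu) ((hj.mem _ _).1 hv) ((hj.mem _ _).1 he)
        exact ⟨j t, (hj.mem _ _).2 ht, (abh_op hj).2 h3⟩
  | 3 =>
    simp only [GV]
    rw [abh_iff hj (fun t ht => hj.tr _ _ ht.1)]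
    simp only [hj.mem]
  | 4 =>
    simp only [GV]
    rw [abh_iff hj (fun t ht => hj.tr _ _ ht.1)]
    simp only [hj.mem]
  | 5 =>
    simp only [GV]
    rw [abh_iff hj]
    · refine forall_congr' fun t => ?_
      rw [abh_ex (fun u hu => hj.tr _ _ hu.1)]
      simp only [hj.mem]
    · rintro t ⟨u, hu, ht⟩
      obtain ⟨u, rfl⟩ := hj.tr _ _ hu
      exact hj.tr _ _ ht
  | 6 =>
    simp only [GV]
    rw [abh_iff hj]
    · refine forall_congr' fun t => ?_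
      refine iff_congr Iff.rfl ?_
      constructor
      · rintro ⟨s, v, hs, h⟩
        obtain ⟨s, rfl⟩ := hj.tr _ _ hs
        obtain ⟨_, ⟨v, rfl⟩⟩ := abh_op_im hj h
        exact ⟨s, v, (hj.mem _ _).1 hs, (abh_op hj).1 h⟩
      · rintro ⟨s, v, hs, h⟩
        exact ⟨j s, j v, (hj.mem _ _).2 hs, (abh_op hj).2 h⟩
    · rintro t ⟨s, v, hs, h⟩
      obtain ⟨s, rfl⟩ := hj.tr _ _ hs
      exact (abh_op_im hj h).1
  | 7 =>
    simp only [GV]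
    constructor
    · rintro ⟨h1, h2⟩
      constructor
      · intro t ht
        obtain ⟨s, u, v, hs, h3, h4⟩ := h1 (j t) ((hj.mem _ _).2 ht)
        obtain ⟨s, rfl⟩ := hj.tr _ _ hs
        obtain ⟨⟨u, rfl⟩, ⟨v, rfl⟩⟩ := abh_op_im hj h4
        exact ⟨s, u, v, (hj.mem _ _).1 hs, (abh_op hj).1 h3, (abh_op hj).1 h4⟩
      · intro s u v hs h3
        obtain ⟨t, ht, h4⟩ := h2 (j s) (j u) (j v) ((hj.mem _ _).2 hs) ((abh_op hj).2 h3)
        obtain ⟨t, rfl⟩ := hj.tr _ _ ht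
        exact ⟨t, (hj.mem _ _).1 ht, (abh_op hj).1 h4⟩
    · rintro ⟨h1, h2⟩
      constructor
      · intro t ht
        obtain ⟨t, rfl⟩ := hj.tr _ _ ht
        obtain ⟨s, u, v, hs, h3, h4⟩ := h1 t ((hj.mem _ _).1 ht)
        exact ⟨j s, j u, j v, (hj.mem _ _).2 hs, (abh_op hj).2 h3, (abh_op hj).2 h4⟩
      · intro s u v hs h3
        obtain ⟨s, rfl⟩ := hj.tr _ _ hs
        obtain ⟨⟨v, rfl⟩, ⟨u, rfl⟩⟩ := abh_op_im hj h3
        obtain ⟨t, ht, h4⟩ := h2 s u v ((hj.mem _ _).1 hs) ((abh_op hj).1 h3)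
        exact ⟨j t, (hj.mem _ _).2 ht, (abh_op hj).2 h4⟩
  | 8 =>
    simp only [GV]
    constructor
    · rintro ⟨h1, h2⟩
      constructor
      · intro t ht
        obtain ⟨s, u, v, w, hs, h3, h4⟩ := h1 (j t) ((hj.mem _ _).2 ht)
        obtain ⟨s, rfl⟩ := hj.tr _ _ hs
        obtain ⟨⟨u, rfl⟩, ⟨v, rfl⟩, ⟨w, rfl⟩⟩ := abh_tri_im hj h4
        exact ⟨s, u, v, w, (hj.mem _ _).1 hs, (abh_tri hj).1 h3, (abh_tri hj).1 h4⟩
      · intro s u v w hs h3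
        obtain ⟨t, ht, h4⟩ := h2 (j s) (j u) (j v) (j w) ((hj.mem _ _).2 hs) ((abh_tri hj).2 h3)
        obtain ⟨t, rfl⟩ := hj.tr _ _ ht
        exact ⟨t, (hj.mem _ _).1 ht, (abh_tri hj).1 h4⟩
    · rintro ⟨h1, h2⟩
      constructor
      · intro t ht
        obtain ⟨t, rfl⟩ := hj.tr _ _ ht
        obtain ⟨s, u, v, w, hs, h3, h4⟩ := h1 t ((hj.mem _ _).1 ht)
        exact ⟨j s, j u, j v, j w, (hj.mem _ _).2 hs, (abh_tri hj).2 h3, (abh_tri hj).2 h4⟩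
      · intro s u v w hs h3
        obtain ⟨s, rfl⟩ := hj.tr _ _ hs
        obtain ⟨⟨u, rfl⟩, ⟨w, rfl⟩, ⟨v, rfl⟩⟩ := abh_tri_im hj h3
        obtain ⟨t, ht, h4⟩ := h2 s u v w ((hj.mem _ _).1 hs) ((abh_tri hj).1 h3)
        exact ⟨j t, (hj.mem _ _).2 ht, (abh_tri hj).2 h4⟩
  | (n + 9) =>
    simp only [GV]
    constructor
    · rintro ⟨h1, h2⟩
      constructor
      · intro t ht
        obtain ⟨s, u, v, w, hs, h3, h4⟩ := h1 (j t) ((hj.mem _ _).2 ht)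
        obtain ⟨s, rfl⟩ := hj.tr _ _ hs
        obtain ⟨⟨u, rfl⟩, ⟨v, rfl⟩, ⟨w, rfl⟩⟩ := abh_tri_im hj h4
        exact ⟨s, u, v, w, (hj.mem _ _).1 hs, (abh_tri hj).1 h3, (abh_tri hj).1 h4⟩
      · intro s u v w hs h3
        obtain ⟨t, ht, h4⟩ := h2 (j s) (j u) (j v) (j w) ((hj.mem _ _).2 hs) ((abh_tri hj).2 h3)
        obtain ⟨t, rfl⟩ := hj.tr _ _ ht
        exact ⟨t, (hj.mem _ _).1 ht, (abh_tri hj).1 h4⟩
    · rintro ⟨h1, h2⟩
      constructor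
      · intro t ht
        obtain ⟨t, rfl⟩ := hj.tr _ _ ht
        obtain ⟨s, u, v, w, hs, h3, h4⟩ := h1 t ((hj.mem _ _).1 ht)
        exact ⟨j s, j u, j v, j w, (hj.mem _ _).2 hs, (abh_tri hj).2 h3, (abh_tri hj).2 h4⟩
      · intro s u v w hs h3
        obtain ⟨s, rfl⟩ := hj.tr _ _ hs
        obtain ⟨⟨v, rfl⟩, ⟨w, rfl⟩, ⟨u, rfl⟩⟩ := abh_tri_im hj h3
        obtain ⟨t, ht, h4⟩ := h2 s u v w ((hj.mem _ _).1 hs) ((abh_tri hj).1 h3)
        exact ⟨j t, (hj.mem _ _).2 ht, (abh_tri hj).2 h4⟩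

theorem abh_step (hj : TEmb j) {c d : K} : GStep (j c) (j d) ↔ GStep c d := by
  unfold GStep
  refine and_congr ?_ (and_congr ?_ ?_)
  · rw [abh_all (fun t ht => hj.tr _ _ ht)]
    simp only [hj.mem]
  · refine forall_congr' fun i => ?_
    constructor
    · intro h a b ha hb
      obtain ⟨z, hz, h1⟩ := h (j a) (j b) ((hj.mem _ _).2 ha) ((hj.mem _ _).2 hb)
      obtain ⟨z, rfl⟩ := hj.tr _ _ hz
      exact ⟨z, (hj.mem _ _).1 hz, (abh_GV hj i).1 h1⟩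
    · intro h a b ha hb
      obtain ⟨a, rfl⟩ := hj.tr _ _ ha
      obtain ⟨b, rfl⟩ := hj.tr _ _ hb
      obtain ⟨z, hz, h1⟩ := h a b ((hj.mem _ _).1 ha) ((hj.mem _ _).1 hb)
      exact ⟨j z, (hj.mem _ _).2 hz, (abh_GV hj i).2 h1⟩
  · rw [abh_all (fun t ht => hj.tr _ _ ht)]
    refine forall_congr' fun z => imp_congr (hj.mem _ _) (or_congr (hj.mem _ _) ?_)
    constructor
    · rintro ⟨a, b, ha, hb, i, h⟩
      obtain ⟨a, rfl⟩ := hj.tr _ _ ha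
      obtain ⟨b, rfl⟩ := hj.tr _ _ hb
      exact ⟨a, b, (hj.mem _ _).1 ha, (hj.mem _ _).1 hb, i, (abh_GV hj i).1 h⟩
    · rintro ⟨a, b, ha, hb, i, h⟩
      exact ⟨j a, j b, (hj.mem _ _).2 ha, (hj.mem _ _).2 hb, i, (abh_GV hj i).2 h⟩

theorem abh_emp (hj : TEmb j) {n : K} : (∀ t, ¬ E t (j n)) ↔ ∀ t, ¬ E t n := by
  constructor
  · intro h t ht
    exact h _ ((hj.mem _ _).2 ht)
  · intro h t ht
    obtain ⟨t, rfl⟩ := hj.tr _ _ ht
    exact h _ ((hj.mem _ _).1 ht)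

theorem abh_suc (hj : TEmb j) {s n : K} : (∀ t, E t (j s) ↔ E t (j n) ∨ t = j n) ↔
    ∀ t, E t s ↔ E t n ∨ t = n := by
  rw [abh_iff hj (fun t ht => ht.elim (fun h => hj.tr _ _ h) (fun h => ⟨n, h⟩))]
  simp only [hj.mem, abh_eq hj]

theorem abh_om0 (hj : TEmb j) {o : K} : IsOm0 (j o) ↔ IsOm0 o := by
  unfold IsOm0
  refine and_congr (abh_ord hj) (and_congr ?_ (and_congr ?_ ?_))
  · rw [abh_ex (fun e he => hj.tr _ _ he.1)]
    simp only [hj.mem, abh_emp hj]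
  · rw [abh_all (fun t ht => hj.tr _ _ ht)]
    refine forall_congr' fun n => imp_congr (hj.mem _ _) ?_
    rw [abh_ex (fun e he => hj.tr _ _ he.1)]
    simp only [hj.mem, abh_suc hj]
  · rw [abh_all (fun t ht => hj.tr _ _ ht)]
    refine forall_congr' fun n => imp_congr (hj.mem _ _) (or_congr (abh_emp hj) ?_)
    rw [abh_ex (fun m hm => hj.tr _ _ ((hm m).2 (Or.inr rfl)))]
    simp only [abh_suc hj]

theorem abh_le_im (hj : TEmb j) {d : K} {b : N} (h : E b (j d) ∨ b = j d) : ∃ y, b = j y :=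
  h.elim (fun h => hj.tr _ _ h) (fun h => ⟨d, h⟩)

theorem abh_le (hj : TEmb j) {b d : K} : (E (j b) (j d) ∨ j b = j d) ↔ (E b d ∨ b = d) :=
  or_congr (hj.mem _ _) (abh_eq hj)

theorem abh_HWf (hj : TEmb j) {d f : K} : HWf (j d) (j f) ↔ HWf d f := by
  unfold HWf
  refine and_congr ?_ ?_
  · rw [abh_all (fun b hb => abh_le_im hj hb)]
    refine forall_congr' fun b => imp_congr (abh_le hj) ?_
    rw [abh_ex (fun y hy => (abh_pair_im hj hy).2)]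
    simp only [abh_pair hj]
  · constructor
    · intro h b y y' h1 h2
      exact hj.inj _ _ (h _ _ _ ((abh_pair hj).2 h1) ((abh_pair hj).2 h2))
    · intro h b y y' h1 h2
      obtain ⟨⟨b, rfl⟩, ⟨y, rfl⟩⟩ := abh_pair_im hj h1
      obtain ⟨_, ⟨y', rfl⟩⟩ := abh_pair_im hj h2
      rw [h _ _ _ ((abh_pair hj).1 h1) ((abh_pair hj).1 h2)]

theorem abh_HWg (hj : TEmb j) {d g o : K} : HWg (j d) (j g) (j o) ↔ HWg d g o := by
  unfold HWg
  refine and_congr ?_ ?_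
  · constructor
    · intro h c n hc hn
      obtain ⟨C, hC⟩ := h (j c) (j n) ((hj.mem _ _).2 hc) ((hj.mem _ _).2 hn)
      obtain ⟨_, _, ⟨C, rfl⟩⟩ := abh_tin_im hj hC
      exact ⟨C, (abh_tin hj).1 hC⟩
    · intro h c n hc hn
      obtain ⟨c, rfl⟩ := hj.tr _ _ hc
      obtain ⟨n, rfl⟩ := hj.tr _ _ hn
      obtain ⟨C, hC⟩ := h c n ((hj.mem _ _).1 hc) ((hj.mem _ _).1 hn)
      exact ⟨j C, (abh_tin hj).2 hC⟩
  · constructor
    · intro h c n C C' h1 h2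
      exact hj.inj _ _ (h _ _ _ _ ((abh_tin hj).2 h1) ((abh_tin hj).2 h2))
    · intro h c n C C' h1 h2
      obtain ⟨⟨c, rfl⟩, ⟨n, rfl⟩, ⟨C, rfl⟩⟩ := abh_tin_im hj h1
      obtain ⟨_, _, ⟨C', rfl⟩⟩ := abh_tin_im hj h2
      rw [h _ _ _ _ ((abh_tin hj).1 h1) ((abh_tin hj).1 h2)]

theorem abh_HW0 (hj : TEmb j) {d f g : K} : HW0 (j d) (j f) (j g) ↔ HW0 d f g := by
  unfold HW0
  constructor
  · intro h c n C y hc hn h1 h2
    exact (abh_suc hj).1 (h _ _ _ _ ((hj.mem _ _).2 hc) ((abh_emp hj).2 hn) ((abh_tin hj).2 h1)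
      ((abh_pair hj).2 h2))
  · intro h c n C y hc hn h1 h2
    obtain ⟨⟨c, rfl⟩, ⟨n, rfl⟩, ⟨C, rfl⟩⟩ := abh_tin_im hj h1
    obtain ⟨_, ⟨y, rfl⟩⟩ := abh_pair_im hj h2
    exact (abh_suc hj).2 (h _ _ _ _ ((hj.mem _ _).1 hc) ((abh_emp hj).1 hn) ((abh_tin hj).1 h1)
      ((abh_pair hj).1 h2))

theorem abh_HWs (hj : TEmb j) {d g o : K} : HWs (j d) (j g) (j o) ↔ HWs d g o := by
  unfold HWs
  constructor
  · intro h c n s C C' hc hn hs h1 h2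
    exact (abh_step hj).1 (h _ _ _ _ _ ((hj.mem _ _).2 hc) ((hj.mem _ _).2 hn)
      ((abh_suc hj).2 hs) ((abh_tin hj).2 h1) ((abh_tin hj).2 h2))
  · intro h c n s C C' hc hn hs h1 h2
    obtain ⟨⟨c, rfl⟩, ⟨n, rfl⟩, ⟨C, rfl⟩⟩ := abh_tin_im hj h1
    obtain ⟨_, ⟨s, rfl⟩, ⟨C', rfl⟩⟩ := abh_tin_im hj h2
    exact (abh_step hj).2 (h _ _ _ _ _ ((hj.mem _ _).1 hc) ((hj.mem _ _).1 hn)
      ((abh_suc hj).1 hs) ((abh_tin hj).1 h1) ((abh_tin hj).1 h2))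

theorem abh_HWl (hj : TEmb j) {d f g o : K} :
    HWl (j d) (j f) (j g) (j o) ↔ HWl d f g o := by
  unfold HWl
  have key : ∀ b y : K, (∀ t, E t (j y) ↔
      ∃ c n C u, E c (j b) ∧ E n (j o) ∧ TripleIn c n C (j g) ∧ PairIn c u (j f) ∧ E t C ∧
        Incl t u) ↔ ∀ t, E t y ↔
      ∃ c n C u, E c b ∧ E n o ∧ TripleIn c n C g ∧ PairIn c u f ∧ E t C ∧ Incl t u := by
    intro b y
    rw [abh_iff hj]
    · refine forall_congr' fun t => iff_congr Iff.rfl ?_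
      constructor
      · rintro ⟨c, n, C, u, h1, h2, h3, h4, h5, h6⟩
        obtain ⟨⟨c, rfl⟩, ⟨n, rfl⟩, ⟨C, rfl⟩⟩ := abh_tin_im hj h3
        obtain ⟨_, ⟨u, rfl⟩⟩ := abh_pair_im hj h4
        exact ⟨c, n, C, u, (hj.mem _ _).1 h1, (hj.mem _ _).1 h2, (abh_tin hj).1 h3,
          (abh_pair hj).1 h4, (hj.mem _ _).1 h5, (abh_incl hj).1 h6⟩
      · rintro ⟨c, n, C, u, h1, h2, h3, h4, h5, h6⟩
        exact ⟨j c, j n, j C, j u, (hj.mem _ _).2 h1, (hj.mem _ _).2 h2, (abh_tin hj).2 h3,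
          (abh_pair hj).2 h4, (hj.mem _ _).2 h5, (abh_incl hj).2 h6⟩
    · rintro t ⟨c, n, C, u, h1, h2, h3, h4, h5, h6⟩
      obtain ⟨_, _, ⟨C, rfl⟩⟩ := abh_tin_im hj h3
      exact hj.tr _ _ h5
  constructor
  · intro h b y hb hy
    exact (key b y).1 (h _ _ ((abh_le hj).2 hb) ((abh_pair hj).2 hy))
  · intro h b y hb hy
    obtain ⟨⟨b, rfl⟩, ⟨y, rfl⟩⟩ := abh_pair_im hj hy
    exact (key b y).2 (h _ _ ((abh_le hj).1 hb) ((abh_pair hj).1 hy))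

end

theorem sep_abh : ABHStmt := by
  intro K N _ _ j hj
  refine ⟨fun d f g o => ?_, fun a b R => abh_pair hj⟩
  unfold HW
  exact and_congr (abh_ord hj) (and_congr (abh_om0 hj) (and_congr (abh_HWf hj)
    (and_congr (abh_HWg hj) (and_congr (abh_HW0 hj) (and_congr (abh_HWs hj) (abh_HWl hj))))))

end SW.SEP
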